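import Pool.Agent.MP_1246c0_nt.H12.SpecN

/-! Upper bound for the real part of a prime sum. -/

namespace Pool.Agent.MP_1246c0_nt.H12

open Finset Filter Topology

namespace CHI

theorem pw_nonneg (σ : ℝ) (n : ℕ) : 0 ≤ pw σ n := Real.rpow_nonneg (Nat.cast_nonneg n) _

theorem pw_zero {σ : ℝ} (h : 0 < σ) : pw σ 0 = 0 := by
  unfold pw
  rw [Nat.cast_zero, Real.zero_rpow (by linarith)]

theorem pw_le {σ : ℝ} (h : 0 < σ) {n : ℕ} (hn : 1 ≤ n) : pw σ n ≤ (n : ℝ)⁻¹ := by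
  unfold pw
  rw [← Real.rpow_neg_one]
  exact Real.rpow_le_rpow_of_exponent_le (by exact_mod_cast hn) (by linarith)

theorem pw_anti {σ : ℝ} (h : 0 < σ) {n : ℕ} (hn : 1 ≤ n) : pw σ (n + 1) ≤ pw σ n :=
  Real.rpow_le_rpow_of_nonpos (by exact_mod_cast hn) (by exact_mod_cast Nat.le_succ n)
    (by linarith)

theorem pw_mul (σ : ℝ) (a b : ℕ) : pw σ (a * b) = pw σ a * pw σ b := by
  unfold pw
  rw [Nat.cast_mul, Real.mul_rpow (Nat.cast_nonneg a) (Nat.cast_nonneg b)]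

theorem pw_sum {σ : ℝ} (h : 0 < σ) : Summable (pw σ) :=
  Real.summable_nat_rpow.2 (by linarith)

theorem part {q : ℕ} {f : ℕ → ℂ} (hq : 1 ≤ q) (h1 : ∀ a, ‖f a‖ ≤ 1) (h2 : ∀ a, f (a + q) = f a)
    (h3 : ∑ a ∈ range q, f a = 0) (N : ℕ) : ‖∑ a ∈ range N, f a‖ ≤ q := by
  induction N using Nat.strong_induction_on with
  | _ N ih =>
    rcases le_or_gt N q with h | h
    · refine (norm_sum_le_of_le _ fun a _ => h1 a).trans ?_
      simpa using h
    · obtain ⟨k, rfl⟩ := Nat.exists_eq_add_of_le h.le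
      rw [sum_range_add, h3, zero_add, sum_congr rfl fun a _ => (by rw [add_comm, h2] :
        f (q + a) = f a)]
      exact ih k (by omega)

theorem abel {z : ℕ → ℂ} {g : ℕ → ℝ} {b : ℝ} (hz : ∀ N, ‖∑ a ∈ range N, z a‖ ≤ b)
    (h0 : ∀ n, 0 ≤ g n) (hg : ∀ n, g (n + 1) ≤ g n) (N : ℕ) :
    ‖∑ a ∈ range N, z a * g a‖ ≤ b * g 0 := by
  have key : ∀ N, ‖∑ a ∈ range N, z a * g a - (g N : ℂ) * ∑ a ∈ range N, z a‖ ≤
      b * (g 0 - g N) := by
    intro N
    induction N with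
    | zero => simp
    | succ N ih =>
      have e : ∑ a ∈ range (N + 1), z a * g a - (g (N + 1) : ℂ) * ∑ a ∈ range (N + 1), z a =
          (∑ a ∈ range N, z a * g a - (g N : ℂ) * ∑ a ∈ range N, z a) +
            ((g N - g (N + 1) : ℝ) : ℂ) * ∑ a ∈ range (N + 1), z a := by
        rw [sum_range_succ, sum_range_succ]
        push_cast
        ring
      rw [e]
      refine (norm_add_le _ _).trans ?_
      rw [norm_mul, Complex.norm_real, Real.norm_eq_abs, abs_of_nonneg (sub_nonneg.2 (hg N))]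
      have := mul_le_mul_of_nonneg_left (hz (N + 1)) (sub_nonneg.2 (hg N))
      linarith
  have h1 := norm_add_le (∑ a ∈ range N, z a * g a - (g N : ℂ) * ∑ a ∈ range N, z a)
    ((g N : ℂ) * ∑ a ∈ range N, z a)
  rw [sub_add_cancel, norm_mul, Complex.norm_real, Real.norm_eq_abs, abs_of_nonneg (h0 N)] at h1
  have h2 := mul_le_mul_of_nonneg_left (hz N) (h0 N)
  have h3 := key N
  linarith

theorem nrm {f : ℕ → ℂ} (h1 : ∀ a, ‖f a‖ ≤ 1) (σ : ℝ) (n : ℕ) :
    ‖f n * (pw σ n : ℂ)‖ ≤ pw σ n := by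
  rw [norm_mul, Complex.norm_real, Real.norm_eq_abs, abs_of_nonneg (pw_nonneg σ n)]
  exact mul_le_of_le_one_left (pw_nonneg σ n) (h1 n)

theorem lser {q : ℕ} {f : ℕ → ℂ} {σ : ℝ} (hq : 1 ≤ q) (h1 : ∀ a, ‖f a‖ ≤ 1)
    (h2 : ∀ a, f (a + q) = f a) (h3 : ∑ a ∈ range q, f a = 0) (hσ : 0 < σ) :
    ‖∑' n : ℕ, f n * (pw σ n : ℂ)‖ ≤ 5 + Real.log q := by
  have hs : Summable fun n : ℕ => f n * (pw σ n : ℂ) :=
    Summable.of_norm_bounded (pw_sum hσ) (nrm h1 σ)
  rw [← hs.sum_add_tsum_nat_add q]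
  have a1 : ‖∑ n ∈ range q, f n * (pw σ n : ℂ)‖ ≤ 1 + Real.log q := by
    refine (norm_sum_le_of_le _ fun n _ => nrm h1 σ n).trans ?_
    refine le_trans ?_ (harmonic_le_one_add_log q)
    have : ∑ n ∈ range q, pw σ n ≤ ∑ n ∈ range (q + 1), pw σ n := by
      rw [sum_range_succ]
      linarith [pw_nonneg σ q]
    refine this.trans ?_
    rw [sum_range_succ', pw_zero hσ, add_zero, harmonic]
    push_cast
    refine sum_le_sum fun n _ => (pw_le hσ (by omega)).trans (le_of_eq ?_)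
    push_cast
    rfl
  have a2 : ‖∑' n : ℕ, f (n + q) * (pw σ (n + q) : ℂ)‖ ≤ 1 := by
    refine le_of_tendsto' ((summable_nat_add_iff q).2 hs).hasSum.tendsto_sum_nat.norm fun N => ?_
    simp only [h2]
    refine (abel (g := fun n => pw σ (n + q)) (part hq h1 h2 h3) (fun n => pw_nonneg _ _)
      (fun n => ?_) N).trans ?_
    · rw [add_right_comm]
      exact pw_anti hσ (by omega)
    · have hq' : (0 : ℝ) < q := by exact_mod_cast hq
      rw [zero_add]
      refine (mul_le_mul_of_nonneg_left (pw_le hσ hq) hq'.le).trans (le_of_eq ?_)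
      exact mul_inv_cancel₀ hq'.ne'
  linarith [norm_add_le (∑ n ∈ range q, f n * (pw σ n : ℂ))
    (∑' n : ℕ, f (n + q) * (pw σ (n + q) : ℂ))]

theorem lg_le {z : ℂ} {t : ℝ} (h : ‖z‖ ≤ t) (ht : t ≤ 1 / 2) :
    ‖z - -Complex.log (1 - z)‖ ≤ t ^ 2 := by
  have h0 := norm_nonneg z
  have h1 := Complex.norm_log_one_add_sub_self_le (z := -z) (by rw [norm_neg]; linarith)
  rw [norm_neg, ← sub_eq_add_neg, sub_neg_eq_add, add_comm] at h1
  rw [sub_neg_eq_add]
  refine h1.trans ?_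
  have h2 : (1 - ‖z‖)⁻¹ ≤ 2 := by
    rw [inv_le_comm₀ (by linarith) (by norm_num)]
    linarith
  have h3 := pow_le_pow_left₀ h0 h 2
  have h4 := mul_le_mul_of_nonneg_left h2 (sq_nonneg ‖z‖)
  linarith

end CHI

open CHI in
theorem rowCHI : SCHI := by
  have hC : Summable fun n : ℕ => ((n : ℝ)⁻¹) ^ 2 := by
    simpa using Real.summable_nat_pow_inv.2 one_lt_two
  have hC' : Summable fun p : Nat.Primes => (((p : ℕ) : ℝ)⁻¹) ^ 2 := hC.subtype Nat.Prime
  refine ⟨∑' p : Nat.Primes, (((p : ℕ) : ℝ)⁻¹) ^ 2, fun q f σ hq f1 fm h1 h2 h3 hσ _ => ?_⟩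
  let F : ℕ →*₀ ℂ :=
    { toFun := fun n => f n * (pw σ n : ℂ)
      map_zero' := by simp [pw_zero hσ]
      map_one' := by simp [f1, pw]
      map_mul' := fun a b => by rw [fm, pw_mul]; push_cast; ring }
  have hn : Summable fun n => ‖F n‖ :=
    Summable.of_nonneg_of_le (fun _ => norm_nonneg _) (nrm h1 σ) (pw_sum hσ)
  have hE := EulerProduct.exp_tsum_primes_log_eq_tsum hn
  have hL : ‖∑' n : ℕ, F n‖ ≤ 5 + Real.log q := lser hq h1 h2 h3 hσ
  rw [← hE, Complex.norm_exp] at hL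
  have hL' := (Real.le_log_iff_exp_le ((Real.exp_pos _).trans_le hL)).2 hL
  have s1 : Summable fun p : Nat.Primes => F p := hn.of_norm.subtype Nat.Prime
  have s2 : Summable fun p : Nat.Primes => -Complex.log (1 - F p) :=
    hn.of_norm.clog_one_sub.neg.subtype Nat.Prime
  have e1 : (∑' p : ℕ, if p.Prime then f p * (pw σ p : ℂ) else 0) = ∑' p : Nat.Primes, F p := by
    refine Eq.trans ?_ (tsum_subtype {p : ℕ | p.Prime} fun p => F p).symm
    refine tsum_congr fun p => ?_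
    by_cases hp : p.Prime
    · rw [if_pos hp, Set.indicator_of_mem (by exact hp)]
      rfl
    · rw [if_neg hp, Set.indicator_of_notMem (by exact hp)]
  have e2 := s1.tsum_sub s2
  have e3 : ‖∑' p : Nat.Primes, (F p - -Complex.log (1 - F p))‖ ≤
      ∑' p : Nat.Primes, (((p : ℕ) : ℝ)⁻¹) ^ 2 := by
    refine tsum_of_norm_bounded hC'.hasSum fun p => ?_
    refine lg_le ((nrm h1 σ p).trans (pw_le hσ p.2.one_le)) ?_
    rw [one_div]
    exact inv_anti₀ (by norm_num) (by exact_mod_cast p.2.two_le)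
  rw [e2] at e3
  have e4 := (Complex.re_le_norm _).trans e3
  rw [Complex.sub_re] at e4
  rw [e1]
  linarith

end Pool.Agent.MP_1246c0_nt.H12
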