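import Pool.Agent.MP_1246c0_nt.H25.SpecA

/-! Unbounded class numbers give solutions with values in a discrete valuation ring. -/

namespace Pool.Agent.MP_1246c0_nt.H25

open Pool.Agent.MP_1246c0_nt.H12

namespace CR0

theorem mu_max {O : Type} [CommRing O] [IsLocalRing O] {J : ℕ} (hJ : 1 ≤ J)
    (h2 : ¬IsUnit (2 : O)) {x : O} (hx : x ∈ Mu O J) : x ∈ IsLocalRing.maximalIdeal O := by
  obtain ⟨y, rfl⟩ := mem_Mu.1 hx
  obtain ⟨k, rfl⟩ := Nat.exists_eq_add_of_le hJ
  have h : (2 : O) ∈ IsLocalRing.maximalIdeal O := (IsLocalRing.mem_maximalIdeal _).2 h2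
  have e : (2 ^ (1 + k) • y : O) = 2 * (2 ^ k * y) := by
    rw [nsmul_eq_mul]; push_cast; ring
  rw [e]
  exact Ideal.mul_mem_right _ _ h

/-- elements whose image is not a unit -/
def nun {M O : Type} [AddCommGroup M] [CommRing O] [IsLocalRing O] (lam : M → O)
    (h0 : lam 0 = 0) (ha : ∀ x y, lam (x + y) - lam x - lam y ∈ IsLocalRing.maximalIdeal O) :
    AddSubgroup M where
  carrier := {x | lam x ∈ IsLocalRing.maximalIdeal O}
  zero_mem' := by
    show lam 0 ∈ IsLocalRing.maximalIdeal O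
    rw [h0]; exact zero_mem _
  add_mem' := fun {x y} hx hy => by
    have e : lam (x + y) = lam (x + y) - lam x - lam y + lam x + lam y := by ring
    show lam (x + y) ∈ IsLocalRing.maximalIdeal O
    rw [e]
    exact add_mem (add_mem (ha x y) hx) hy
  neg_mem' := fun {x} hx => by
    have h := ha x (-x)
    rw [add_neg_cancel, h0] at h
    have e : lam (-x) = -(0 - lam x - lam (-x)) - lam x := by ring
    show lam (-x) ∈ IsLocalRing.maximalIdeal O
    rw [e]
    exact sub_mem (neg_mem h) hx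

end CR0

open CR0 in
theorem rowCR0 : OfCR0 := by
  classical
  intro cc chr eg Φ d P J ax hsq hodd hP h5 hd hG hJ
  obtain ⟨M, iM, fM, n, T, ψ, hT, hn, hc, hcl, hi, hy⟩ :=
    chr Φ d P (J * (tt d + 1 + 1)) ax hsq hodd hP h5 hd hG
  obtain ⟨O, i1, i2, i3, i4, i5, t, lam, e1, e2, e3, e4, e5, e6, e7, x, hx⟩ :=
    eg M T (tt d + 1) J n hJ hT hn hi hy
  refine ⟨O, i1, i2, i3, i4, i5, t, n, Nat.find e1.2.2, fun h => lam (ψ h), e2, e3, e1,
    ⟨Nat.find_spec e1.2.2, fun i hi' => Nat.find_min e1.2.2 hi'⟩, e4, ?_, ?_⟩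
  · refine cc.map M O Φ d P n T _ ⊥ (Mu O J) lam ψ ?_ ?_ e5 e6 hc
    · intro z hz
      obtain ⟨y, rfl⟩ := mem_Mu.1 hz
      exact mem_Mu.2 ⟨_, (map_nsmul _ _ _).symm⟩
    · intro z hz
      rw [AddSubgroup.mem_bot.1 hz, e7]; exact zero_mem _
  · by_contra hne
    push Not at hne
    have hle : AddSubgroup.closure (Set.range ψ) ≤
        nun lam e7 fun x y => mu_max hJ e1.1 (e5 x y) := by
      rw [AddSubgroup.closure_le]
      rintro _ ⟨h, rfl⟩
      exact (IsLocalRing.mem_maximalIdeal _).2 (hne h)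
    rw [hcl] at hle
    exact (IsLocalRing.mem_maximalIdeal _).1 (hle (AddSubgroup.mem_top x)) hx

end Pool.Agent.MP_1246c0_nt.H25
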